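import Mathlib

set_option autoImplicit false

/-!
# Ramanujan's L-function: the completed function as a Mellin transform
-/

namespace Pool.Agent.H575.RD

open Complex MeasureTheory Filter Topology Set MatrixGroups
open UpperHalfPlane hiding I
open scoped ComplexConjugate Real

/-- `Δ(i y)` -/
noncomputable def Dl (y : ℝ) : ℝ :=
  Real.exp (-2 * Real.pi * y) * ∏' n : ℕ, (1 - Real.exp (-2 * Real.pi * ((n : ℝ) + 1) * y)) ^ 24

/-- the completed function -/
noncomputable def LamM (s : ℂ) : ℂ := mellin (fun y : ℝ => ((Dl y : ℝ) : ℂ)) s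

lemma ofReal_tprod' (f : ℕ → ℝ) : ((∏' n, f n : ℝ) : ℂ) = ∏' n, ((f n : ℝ) : ℂ) :=
  Function.LeftInverse.map_tprod (g := Complex.ofRealHom) (g' := Complex.re) f
    Complex.continuous_ofReal Complex.continuous_re (fun x => Complex.ofReal_re x)

lemma q_eq (y : ℝ) (k : ℕ) : Function.Periodic.qParam 1 (I * (y : ℂ)) ^ k =
    ((Real.exp (-2 * Real.pi * (k : ℝ) * y) : ℝ) : ℂ) := by
  unfold Function.Periodic.qParam
  rw [← Complex.exp_nat_mul, Complex.ofReal_exp]
  congr 1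
  push_cast
  have : (I : ℂ) ^ 2 = -1 := I_sq
  linear_combination (2 * Real.pi * k * y : ℂ) * this

lemma Dl_eq {y : ℝ} (hy : 0 < y) : CuspForm.discriminant (ofComplex (I * y)) = ((Dl y : ℝ) : ℂ) := by
  have him : 0 < (I * (y : ℂ)).im := by simpa using hy
  rw [CuspForm.coe_discriminant, ModularForm.discriminant_eq_q_prod, ofComplex_apply_of_im_pos him]
  unfold Dl
  rw [Complex.ofReal_mul, ofReal_tprod']
  congr 1
  · have h := q_eq y 1
    rw [pow_one] at h
    show Function.Periodic.qParam 1 (I * (y : ℂ)) = _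
    rw [h]
    norm_num
  · refine tprod_congr fun n => ?_
    show (1 - Function.Periodic.qParam 1 (I * (y : ℂ)) ^ (n + 1)) ^ 24 = _
    rw [q_eq]
    push_cast
    ring_nf

/-- the functional equation pair -/
noncomputable abbrev PP : WeakFEPair ℂ :=
  ModularForm.weakFEPair (k := 12) (by norm_num) CuspForm.discriminant

lemma strong : IsStrongFEPair PP := CuspForm.isStrongFEPair _ _

lemma mellin_congr' {f g : ℝ → ℂ} (h : ∀ y : ℝ, 0 < y → f y = g y) (s : ℂ) : mellin f s = mellin g s := by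
  unfold mellin
  refine setIntegral_congr_fun measurableSet_Ioi fun y hy => ?_
  show (y : ℂ) ^ (s - 1) • f y = (y : ℂ) ^ (s - 1) • g y
  rw [h y hy]

lemma PP_f {y : ℝ} (hy : 0 < y) : PP.f y = ((Dl y : ℝ) : ℂ) := by
  show CuspForm.discriminant (ofComplex (I * y)) = _
  exact Dl_eq hy

lemma PP_g {y : ℝ} (hy : 0 < y) : PP.g y = ((Dl y : ℝ) : ℂ) := by
  show ModularForm.translate CuspForm.discriminant ModularGroup.S (ofComplex (I * y)) = _
  rw [ModularForm.coe_translate]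
  have h := ModularForm.discriminant_S_invariant
  rw [← CuspForm.coe_discriminant] at h
  refine Eq.trans (congrFun h (ofComplex (I * y))) ?_
  exact Dl_eq hy

lemma LamM_eq : LamM = PP.Λ := by
  funext s
  rw [strong.Λ_eq]
  unfold LamM
  exact mellin_congr' (fun y hy => (PP_f hy).symm) s

lemma LamM_diff : Differentiable ℂ LamM := by
  rw [LamM_eq]
  exact strong.differentiable_Λ

lemma LamM_fe (s : ℂ) : LamM (12 - s) = LamM s := by
  have h := PP.functional_equation s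
  have hk : (PP.k : ℂ) = 12 := by
    show (((12 : ℤ) : ℝ) : ℂ) = 12
    push_cast
    rfl
  have hε : PP.ε = 1 := by
    show (I : ℂ) ^ (12 : ℤ) = 1
    have : (I : ℂ) ^ (12 : ℤ) = ((I : ℂ) ^ 4) ^ 3 := by
      rw [← pow_mul]
      norm_cast
    rw [this, I_pow_four, one_pow]
  rw [hk, hε, one_smul, strong.symm_Λ_eq] at h
  rw [LamM_eq, h]
  rw [← LamM_eq]
  unfold LamM
  exact mellin_congr' (fun y hy => PP_g hy) s

lemma mc (s : ℂ) : MellinConvergent (fun y : ℝ => ((Dl y : ℝ) : ℂ)) s := by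
  have h : MellinConvergent PP.f s := (strong.hasMellin s).1
  unfold MellinConvergent at h ⊢
  refine h.congr_fun (fun y hy => ?_) measurableSet_Ioi
  show (y : ℂ) ^ (s - 1) • PP.f y = (y : ℂ) ^ (s - 1) • ((Dl y : ℝ) : ℂ)
  rw [PP_f hy]

lemma norm_int (σ : ℝ) : IntegrableOn (fun y : ℝ => y ^ (σ - 1) * |Dl y|) (Ioi 0) := by
  have h : IntegrableOn (fun y : ℝ => ‖(y : ℂ) ^ ((σ : ℂ) - 1) • ((Dl y : ℝ) : ℂ)‖) (Ioi 0) := (mc σ).norm
  refine h.congr_fun (fun y hy => ?_) measurableSet_Ioi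
  have hy0 : (0 : ℝ) < y := hy
  show ‖(y : ℂ) ^ ((σ : ℂ) - 1) • ((Dl y : ℝ) : ℂ)‖ = _
  rw [norm_smul, Complex.norm_real, Real.norm_eq_abs, Complex.norm_cpow_eq_rpow_re_of_pos hy0]
  simp

lemma norm_LamM_le (s : ℂ) : ‖LamM s‖ ≤ ∫ y in Ioi (0 : ℝ), y ^ (s.re - 1) * |Dl y| := by
  unfold LamM mellin
  refine (norm_integral_le_integral_norm _).trans (le_of_eq ?_)
  refine setIntegral_congr_fun measurableSet_Ioi fun y hy => ?_
  have hy0 : (0 : ℝ) < y := hy
  show ‖(y : ℂ) ^ (s - 1) • ((Dl y : ℝ) : ℂ)‖ = _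
  rw [norm_smul, Complex.norm_real, Real.norm_eq_abs, Complex.norm_cpow_eq_rpow_re_of_pos hy0]
  simp

lemma LamM_strip (a b : ℝ) : ∃ M : ℝ, 0 ≤ M ∧ ∀ s : ℂ, a ≤ s.re → s.re ≤ b → ‖LamM s‖ ≤ M := by
  refine ⟨∫ y in Ioi (0 : ℝ), (y ^ (a - 1) * |Dl y| + y ^ (b - 1) * |Dl y|), ?_, fun s h1 h2 => ?_⟩
  · refine setIntegral_nonneg measurableSet_Ioi fun y hy => ?_
    have hy0 : (0 : ℝ) < y := hy
    positivity
  · refine (norm_LamM_le s).trans ?_
    refine setIntegral_mono_on (norm_int s.re) ((norm_int a).add (norm_int b)) measurableSet_Ioi fun y hy => ?_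
    have hy0 : (0 : ℝ) < y := hy
    rw [← add_mul]
    refine mul_le_mul_of_nonneg_right ?_ (abs_nonneg _)
    rcases le_total y 1 with h | h
    · have := Real.rpow_le_rpow_of_exponent_ge hy0 h (show a - 1 ≤ s.re - 1 by linarith)
      have h3 : 0 ≤ y ^ (b - 1) := by positivity
      linarith
    · have := Real.rpow_le_rpow_of_exponent_le h (show s.re - 1 ≤ b - 1 by linarith)
      have h3 : 0 ≤ y ^ (a - 1) := by positivity
      linarith

lemma LamM_conj (s : ℂ) : LamM (conj s) = conj (LamM s) := by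
  unfold LamM mellin
  rw [← integral_conj]
  refine setIntegral_congr_fun measurableSet_Ioi fun y hy => ?_
  have hy0 : (0 : ℝ) < y := hy
  show (y : ℂ) ^ (conj s - 1) • ((Dl y : ℝ) : ℂ) = conj ((y : ℂ) ^ (s - 1) • ((Dl y : ℝ) : ℂ))
  rw [smul_eq_mul, smul_eq_mul, map_mul, Complex.conj_ofReal]
  congr 1
  rw [show conj s - 1 = conj (s - 1) by simp, Complex.cpow_conj]
  · rw [Complex.conj_ofReal]
  · rw [Complex.arg_ofReal_of_nonneg hy0.le]
    exact Real.pi_pos.ne

end Pool.Agent.H575.RD
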