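import Pool.Graph.R_pool_sql_team_seeded_64922ed1.X3.Tau
import Pool.Agent.H575.RD.D1

set_option autoImplicit false

/-!
# Ramanujan's L-function: coefficients, Dirichlet series and Euler product
-/

namespace Pool.Agent.H575.RD

open Complex MeasureTheory Filter Topology Set MatrixGroups
open UpperHalfPlane hiding I
open scoped ComplexConjugate Real
open Pool.Agent.X3.Tau Pool.Agent.H397R2.PP

lemma coeff_tau (n : ℕ) : (qExpansion 1 CuspForm.discriminant).coeff n = ((tau n : ℤ) : ℂ) := by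
  rw [CuspForm.coe_discriminant, qExpansion_discriminant, PowerSeries.coeff_map, tau_eq]
  rfl

/-- Hecke's bound -/
lemma tau_bound : ∃ C : ℝ, 0 < C ∧ ∀ n : ℕ, |((tau n : ℤ) : ℝ)| ≤ C * (n : ℝ) ^ (6 : ℕ) := by
  have h := CuspFormClass.qExpansion_isBigO (k := 12) CuspForm.discriminant
  rw [Subgroup.strictWidthInfty_SL2Z] at h
  obtain ⟨C, hC⟩ := h.bound
  rw [eventually_atTop] at hC
  obtain ⟨N0, hN⟩ := hC
  refine ⟨|C| + 1 + ∑ n ∈ Finset.range (N0 + 1), |((tau n : ℤ) : ℝ)|, by positivity, fun n => ?_⟩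
  rcases Nat.eq_zero_or_pos n with rfl | hn
  · rw [tau_zero]; simp
  have hn1 : (1 : ℝ) ≤ (n : ℝ) ^ (6 : ℕ) := one_le_pow₀ (by exact_mod_cast hn)
  have hS : 0 ≤ ∑ n ∈ Finset.range (N0 + 1), |((tau n : ℤ) : ℝ)| := Finset.sum_nonneg fun _ _ => abs_nonneg _
  rcases lt_or_ge n (N0 + 1) with h1 | h1
  · have h2 : |((tau n : ℤ) : ℝ)| ≤ ∑ n ∈ Finset.range (N0 + 1), |((tau n : ℤ) : ℝ)| :=
      Finset.single_le_sum (f := fun n => |((tau n : ℤ) : ℝ)|) (fun _ _ => abs_nonneg _) (Finset.mem_range.2 h1)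
    have h3 : 0 ≤ |C| := abs_nonneg _
    nlinarith
  · have h2 := hN n (by omega)
    rw [coeff_tau] at h2
    have e1 : ‖((tau n : ℤ) : ℂ)‖ = |((tau n : ℤ) : ℝ)| := by
      rw [← Complex.ofReal_intCast, Complex.norm_real, Real.norm_eq_abs]
    have e2 : ‖((n : ℝ) ^ (((12 : ℤ) : ℝ) / 2))‖ = (n : ℝ) ^ (6 : ℕ) := by
      rw [Real.norm_of_nonneg (by positivity), ← Real.rpow_natCast]
      norm_num
    rw [e1, e2] at h2
    have h3 := le_abs_self C
    nlinarith

/-- multiplicativity at a prime -/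
lemma tau_pow_mul (p : ℕ) (hp : p.Prime) (n : ℕ) (hn : ¬ p ∣ n) (e : ℕ) :
    tau (p ^ e * n) = tau (p ^ e) * tau n ∧ tau (p ^ (e + 1) * n) = tau (p ^ (e + 1)) * tau n := by
  induction e with
  | zero =>
    refine ⟨by simp [tau_one], ?_⟩
    have h := hecke p hp n
    rw [if_neg hn, add_zero] at h
    rw [zero_add, pow_one]
    exact h
  | succ e ih =>
    refine ⟨ih.2, ?_⟩
    have hp0 : 0 < p := hp.pos
    have h1 := hecke p hp (p ^ (e + 1) * n)
    have h2 := hecke p hp (p ^ (e + 1))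
    have d1 : p ∣ p ^ (e + 1) * n := Dvd.dvd.mul_right (dvd_pow_self p (by omega)) n
    have d2 : p ∣ p ^ (e + 1) := dvd_pow_self p (by omega)
    rw [if_pos d1] at h1
    rw [if_pos d2] at h2
    have e1 : p ^ (e + 1) * n / p = p ^ e * n := by
      rw [pow_succ, mul_assoc, mul_comm p n, ← mul_assoc]
      exact Nat.mul_div_cancel _ hp0
    have e2 : p ^ (e + 1) / p = p ^ e := by
      rw [pow_succ]
      exact Nat.mul_div_cancel _ hp0
    have e3 : p * (p ^ (e + 1) * n) = p ^ (e + 1 + 1) * n := by ring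
    have e4 : p * p ^ (e + 1) = p ^ (e + 1 + 1) := by ring
    rw [e1, e3, ih.1, ih.2] at h1
    rw [e2, e4] at h2
    linear_combination h1 - tau n * h2

lemma tau_pow_rec (p : ℕ) (hp : p.Prime) (e : ℕ) :
    tau (p ^ (e + 2)) = tau p * tau (p ^ (e + 1)) - (p : ℤ) ^ 11 * tau (p ^ e) := by
  have h2 := hecke p hp (p ^ (e + 1))
  have d2 : p ∣ p ^ (e + 1) := dvd_pow_self p (by omega)
  rw [if_pos d2] at h2
  have e2 : p ^ (e + 1) / p = p ^ e := by
    rw [pow_succ]
    exact Nat.mul_div_cancel _ hp.pos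
  have e4 : p * p ^ (e + 1) = p ^ (e + 2) := by ring
  rw [e2, e4] at h2
  linarith

theorem tau_mul {m n : ℕ} (h : Nat.Coprime m n) : tau (m * n) = tau m * tau n := by
  induction m using Nat.recOnPosPrimePosCoprime generalizing n with
  | prime_pow p e hp he =>
    have hn : ¬ p ∣ n := by
      intro hd
      have h1 := Nat.Coprime.coprime_dvd_left (dvd_pow_self p (by omega : e ≠ 0)) h
      have h2 := (Nat.Prime.coprime_iff_not_dvd hp).1 h1
      exact h2 hd
    exact (tau_pow_mul p hp n hn e).1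
  | zero =>
    have : n = 1 := by simpa using h
    rw [this]; simp [tau_one, tau_zero]
  | one => simp [tau_one]
  | coprime a b ha hb hab iha ihb =>
    have h1 : Nat.Coprime a n := Nat.Coprime.coprime_mul_right h
    have h2 : Nat.Coprime b n := Nat.Coprime.coprime_mul_left h
    have h3 : Nat.Coprime a (b * n) := Nat.Coprime.mul_right hab h1
    rw [mul_assoc, iha h3, ihb h2, iha hab]
    ring

end Pool.Agent.H575.RD
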