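import Pool.Agent.H575.RD.D2

set_option autoImplicit false

/-!
# Ramanujan's L-function: Satake parameters and Euler product
-/

namespace Pool.Agent.H575.RD

open Complex MeasureTheory Filter Topology Set MatrixGroups
open UpperHalfPlane hiding I
open scoped ComplexConjugate Real
open Pool.Agent.X3.Tau

/-- normalised coefficients `τ(n) / n^(11/2)` -/
noncomputable def la (n : ℕ) : ℝ := ((tau n : ℤ) : ℝ) / (n : ℝ) ^ (11 / 2 : ℝ)

lemma la_zero : la 0 = 0 := by unfold la; rw [tau_zero]; simp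

lemma la_one : la 1 = 1 := by unfold la; rw [tau_one]; simp

lemma la_mul {m n : ℕ} (h : Nat.Coprime m n) : la (m * n) = la m * la n := by
  unfold la
  rw [tau_mul h]
  push_cast
  rw [Real.mul_rpow (Nat.cast_nonneg m) (Nat.cast_nonneg n), mul_div_mul_comm]

lemma la_rec (p : ℕ) (hp : p.Prime) (e : ℕ) : la (p ^ (e + 2)) = la p * la (p ^ (e + 1)) - la (p ^ e) := by
  have hp0 : (0 : ℝ) < p := by exact_mod_cast hp.pos
  unfold la
  rw [tau_pow_rec p hp e]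
  push_cast
  have e1 : ∀ k : ℕ, ((p : ℝ) ^ k) ^ (11 / 2 : ℝ) = ((p : ℝ) ^ (11 / 2 : ℝ)) ^ k := fun k => by
    rw [← Real.rpow_natCast, ← Real.rpow_mul hp0.le, mul_comm, Real.rpow_mul hp0.le, Real.rpow_natCast]
  rw [e1, e1, e1]
  have hx : 0 < (p : ℝ) ^ (11 / 2 : ℝ) := by positivity
  have e2 : (p : ℝ) ^ 11 = ((p : ℝ) ^ (11 / 2 : ℝ)) ^ 2 := by
    rw [← Real.rpow_natCast ((p : ℝ) ^ (11 / 2 : ℝ)) 2, ← Real.rpow_mul hp0.le, ← Real.rpow_natCast (p : ℝ) 11]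
    congr 1
    push_cast
    norm_num
  rw [e2]
  generalize (p : ℝ) ^ (11 / 2 : ℝ) = x at hx
  rw [pow_succ x (e + 1), pow_succ x e]
  have hxe : x ^ e ≠ 0 := by positivity
  field_simp

lemma la_bound : ∃ C : ℝ, 0 < C ∧ ∀ n : ℕ, |la n| ≤ C * Real.sqrt n := by
  obtain ⟨C, hC, h⟩ := tau_bound
  refine ⟨C, hC, fun n => ?_⟩
  rcases Nat.eq_zero_or_pos n with rfl | hn
  · rw [la_zero]; simp
  have hn0 : (0 : ℝ) < n := by exact_mod_cast hn
  unfold la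
  rw [abs_div, abs_of_pos (by positivity : 0 < (n : ℝ) ^ (11 / 2 : ℝ)), div_le_iff₀ (by positivity)]
  refine (h n).trans (le_of_eq ?_)
  rw [Real.sqrt_eq_rpow, mul_assoc, ← Real.rpow_add hn0, ← Real.rpow_natCast]
  norm_num

/-- a root of `X² - λ(p) X + 1` has absolute value at most `√p` -/
lemma root_le {p : ℕ} (hp : p.Prime) {b : ℂ} (hb : b ^ 2 = (la p : ℂ) * b - 1) : ‖b‖ ≤ Real.sqrt p := by
  by_contra hcon
  push Not at hcon
  have hp1 : (1 : ℝ) ≤ p := by exact_mod_cast hp.one_le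
  have hsp : 1 ≤ Real.sqrt p := Real.one_le_sqrt.2 hp1
  have hb1 : 1 < ‖b‖ := lt_of_le_of_lt hsp hcon
  have hb0 : b ≠ 0 := by
    intro h
    rw [h, norm_zero] at hb1
    linarith
  -- the other root
  set c : ℂ := (la p : ℂ) - b with hc
  have hbc : b * c = 1 := by rw [hc]; linear_combination -hb
  have hcn : ‖c‖ < 1 := by
    have h1 : ‖b‖ * ‖c‖ = 1 := by rw [← norm_mul, hbc, norm_one]
    nlinarith [norm_nonneg c]
  -- closed formula
  have key : ∀ e : ℕ, (b - c) * (la (p ^ e) : ℂ) = b ^ (e + 1) - c ^ (e + 1) := by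
    intro e
    induction e using Nat.twoStepInduction with
    | zero => rw [pow_zero, la_one]; simp
    | one => rw [pow_one]; rw [hc]; ring
    | more e ih1 ih2 =>
      rw [la_rec p hp e]
      push_cast
      have hlam : (la p : ℂ) = b + c := by rw [hc]; ring
      rw [hlam]
      linear_combination (b + c) * ih2 - ih1 + (b ^ (e + 1) - c ^ (e + 1)) * hbc
  obtain ⟨C, hC, hbd⟩ := la_bound
  -- growth
  have h1 : ∀ e : ℕ, ‖b‖ ^ (e + 1) ≤ (‖b - c‖ * C + 1) * (Real.sqrt p) ^ (e + 1) := by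
    intro e
    have h2 : b ^ (e + 1) = (b - c) * (la (p ^ e) : ℂ) + c ^ (e + 1) := by rw [key e]; ring
    have h3 := hbd (p ^ e)
    have h4 : Real.sqrt ((p ^ e : ℕ) : ℝ) = (Real.sqrt p) ^ e := by
      push_cast
      rw [Real.sqrt_eq_rpow, Real.sqrt_eq_rpow, ← Real.rpow_natCast, ← Real.rpow_natCast, ← Real.rpow_mul (by positivity),
        ← Real.rpow_mul (by positivity), mul_comm]
    rw [h4] at h3
    have h5 : ‖c‖ ^ (e + 1) ≤ 1 := pow_le_one₀ (norm_nonneg _) hcn.le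
    have h6 : (1 : ℝ) ≤ (Real.sqrt p) ^ (e + 1) := one_le_pow₀ hsp
    have h7 : (Real.sqrt p) ^ e ≤ (Real.sqrt p) ^ (e + 1) := pow_le_pow_right₀ hsp (Nat.le_succ e)
    calc ‖b‖ ^ (e + 1) = ‖(b - c) * (la (p ^ e) : ℂ) + c ^ (e + 1)‖ := by rw [← h2, norm_pow]
      _ ≤ ‖b - c‖ * |la (p ^ e)| + ‖c‖ ^ (e + 1) := by
          refine (norm_add_le _ _).trans ?_
          rw [norm_mul, Complex.norm_real, Real.norm_eq_abs, norm_pow]
      _ ≤ ‖b - c‖ * (C * (Real.sqrt p) ^ (e + 1)) + (Real.sqrt p) ^ (e + 1) := by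
          refine add_le_add ?_ (h5.trans h6)
          refine mul_le_mul_of_nonneg_left (h3.trans ?_) (norm_nonneg _)
          exact mul_le_mul_of_nonneg_left h7 hC.le
      _ = _ := by ring
  have hq : 1 < ‖b‖ / Real.sqrt p := by
    rw [lt_div_iff₀ (by linarith), one_mul]
    exact hcon
  have h2 := tendsto_pow_atTop_atTop_of_one_lt hq
  have h3 := (h2.comp (tendsto_add_atTop_nat 1)).eventually_gt_atTop (‖b - c‖ * C + 1)
  obtain ⟨e, he⟩ := h3.exists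
  have h4 := h1 e
  simp only [Function.comp] at he
  rw [div_pow, lt_div_iff₀ (by positivity)] at he
  linarith

/-- Satake parameters: the two roots of `X² - λ(p) X + 1` -/
noncomputable def sat (p : ℕ) : Fin 2 → ℂ := ![
  ((la p : ℂ) + ((la p : ℂ) ^ 2 - 4) ^ (1 / 2 : ℂ)) / 2, ((la p : ℂ) - ((la p : ℂ) ^ 2 - 4) ^ (1 / 2 : ℂ)) / 2]

lemma sqrt_sq (z : ℂ) : (z ^ (1 / 2 : ℂ)) ^ 2 = z := by
  rw [← Complex.cpow_nat_mul]
  norm_num

lemma sat_root (p : ℕ) (j : Fin 2) : sat p j ^ 2 = (la p : ℂ) * sat p j - 1 := by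
  have h := sqrt_sq ((la p : ℂ) ^ 2 - 4)
  fin_cases j
  · show (((la p : ℂ) + ((la p : ℂ) ^ 2 - 4) ^ (1 / 2 : ℂ)) / 2) ^ 2 = _ * (((la p : ℂ) + ((la p : ℂ) ^ 2 - 4) ^ (1 / 2 : ℂ)) / 2) - 1
    linear_combination (1 / 4) * h
  · show (((la p : ℂ) - ((la p : ℂ) ^ 2 - 4) ^ (1 / 2 : ℂ)) / 2) ^ 2 = _ * (((la p : ℂ) - ((la p : ℂ) ^ 2 - 4) ^ (1 / 2 : ℂ)) / 2) - 1
    linear_combination (1 / 4) * h

lemma sat_le {p : ℕ} (hp : p.Prime) (j : Fin 2) : ‖sat p j‖ ≤ Real.sqrt p := root_le hp (sat_root p j)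

lemma sat_prod (p : ℕ) (x : ℂ) : ∏ j, (1 - sat p j * x)⁻¹ = (1 - (la p : ℂ) * x + x ^ 2)⁻¹ := by
  rw [Fin.prod_univ_two, ← mul_inv]
  congr 1
  have h := sqrt_sq ((la p : ℂ) ^ 2 - 4)
  show (1 - (((la p : ℂ) + ((la p : ℂ) ^ 2 - 4) ^ (1 / 2 : ℂ)) / 2) * x) * (1 - (((la p : ℂ) - ((la p : ℂ) ^ 2 - 4) ^ (1 / 2 : ℂ)) / 2) * x) = _
  linear_combination (-(1 / 4) * x ^ 2) * h

/-- the sum over the powers of one prime -/
lemma local_sum {a : ℕ → ℂ} {u v : ℂ} (ha : Summable a) (h0 : a 0 = 1) (h1 : a 1 = u)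
    (h2 : ∀ j, a (j + 2) = u * a (j + 1) - v * a j) : ∑' j, a j = (1 - u + v)⁻¹ := by
  have hs1 : Summable (fun j => a (j + 1)) := (summable_nat_add_iff 1).mpr ha
  have hs2 : Summable (fun j => a (j + 2)) := (summable_nat_add_iff 2).mpr ha
  have e1 : ∑' j, a j = a 0 + ∑' j, a (j + 1) := ha.tsum_eq_zero_add
  have e2 : ∑' j, a (j + 1) = a 1 + ∑' j, a (j + 2) := hs1.tsum_eq_zero_add
  have e3 : ∑' j, a (j + 2) = u * ∑' j, a (j + 1) - v * ∑' j, a j := by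
    rw [← tsum_mul_left, ← tsum_mul_left, ← (hs1.mul_left u).tsum_sub (ha.mul_left v)]
    exact tsum_congr h2
  have e4 : (∑' j, a j) * (1 - u + v) = 1 := by
    rw [h0] at e1
    rw [h1] at e2
    have e5 : ∑' j, a (j + 1) = ∑' j, a j - 1 := by rw [e1]; ring
    rw [e3, e5] at e2
    linear_combination e2
  exact eq_inv_of_mul_eq_one_left e4

/-- absolute convergence for `Re s > 3/2` -/
lemma la_summable {s : ℂ} (hs : 3 / 2 < s.re) : Summable fun n : ℕ => ‖(la n : ℂ) * (n : ℂ) ^ (-s)‖ := by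
  obtain ⟨C, hC, h⟩ := la_bound
  have h1 : Summable fun n : ℕ => C * (n : ℝ) ^ (1 / 2 - s.re) :=
    (Real.summable_nat_rpow.2 (by linarith)).mul_left C
  refine Summable.of_nonneg_of_le (fun n => norm_nonneg _) (fun n => ?_) h1
  rcases Nat.eq_zero_or_pos n with rfl | hn
  · rw [la_zero, Complex.ofReal_zero, zero_mul, norm_zero]
    positivity
  · have hn0 : (0 : ℝ) < n := by exact_mod_cast hn
    rw [norm_mul, Complex.norm_real, Real.norm_eq_abs, Complex.norm_natCast_cpow_of_pos hn, neg_re]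
    calc |la n| * (n : ℝ) ^ (-s.re) ≤ (C * Real.sqrt n) * (n : ℝ) ^ (-s.re) :=
          mul_le_mul_of_nonneg_right (h n) (by positivity)
      _ = C * (n : ℝ) ^ (1 / 2 - s.re) := by
          rw [Real.sqrt_eq_rpow, mul_assoc, ← Real.rpow_add hn0]
          congr 2

/-- the Euler product -/
theorem euler {s : ℂ} (hs : 3 / 2 < s.re) :
    HasProd (fun p : Nat.Primes => ∏ j, (1 - sat p j * ((p : ℕ) : ℂ) ^ (-s))⁻¹)
      (∑' n : ℕ, (la n : ℂ) * (n : ℂ) ^ (-s)) := by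
  have hsum := la_summable hs
  have h := EulerProduct.eulerProduct_hasProd (f := fun n : ℕ => (la n : ℂ) * (n : ℂ) ^ (-s))
    (by simp [la_one]) (fun {m n} hmn => by
      show ((la (m * n) : ℝ) : ℂ) * ((m * n : ℕ) : ℂ) ^ (-s) = _
      rw [la_mul hmn]
      push_cast
      rw [Complex.natCast_mul_natCast_cpow]
      ring) hsum (by simp [la_zero])
  convert h using 2 with p
  have hp := p.2
  have hp0 : ((p : ℕ) : ℂ) ≠ 0 := by exact_mod_cast hp.ne_zero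
  have hpc : ∀ e : ℕ, (((p : ℕ) ^ e : ℕ) : ℂ) ^ (-s) = (((p : ℕ) : ℂ) ^ (-s)) ^ e := fun e => by
    rw [Nat.cast_pow, ← Complex.natCast_cpow_natCast_mul, ← Complex.cpow_nat_mul]
  have hinj : Function.Injective fun e : ℕ => (p : ℕ) ^ e := Nat.pow_right_injective hp.two_le
  have hs1 : Summable fun e : ℕ => (la ((p : ℕ) ^ e) : ℂ) * (((p : ℕ) ^ e : ℕ) : ℂ) ^ (-s) :=
    (hsum.of_norm).comp_injective hinj
  have hs2 : Summable fun e : ℕ => (la ((p : ℕ) ^ e) : ℂ) * (((p : ℕ) : ℂ) ^ (-s)) ^ e :=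
    hs1.congr fun e => by rw [hpc]
  have hl := local_sum hs2 (u := (la p : ℂ) * ((p : ℕ) : ℂ) ^ (-s)) (v := (((p : ℕ) : ℂ) ^ (-s)) ^ 2)
    (by simp [la_one]) (by simp) (fun j => by
      rw [la_rec p hp j]
      push_cast
      ring)
  rw [sat_prod, ← hl]
  refine tsum_congr fun e => ?_
  show (la ((p : ℕ) ^ e) : ℂ) * (((p : ℕ) : ℂ) ^ (-s)) ^ e = (la ((p : ℕ) ^ e) : ℂ) * (((p : ℕ) ^ e : ℕ) : ℂ) ^ (-s)
  rw [hpc]

end Pool.Agent.H575.RD
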