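import Pool.Agent.H575.RD.D3
import Pool.Graph.R_pool_sql_team_seeded_3997aac3.Q286.GB.All

set_option autoImplicit false

/-!
# Ramanujan's L-function as an object of project GB
-/

namespace Pool.Agent.H575.RD

open Complex MeasureTheory Filter Topology Set MatrixGroups
open UpperHalfPlane hiding I
open scoped ComplexConjugate Real ENNReal
open Pool.Agent.X3.Tau Pool.Agent.Q286.GB

/-- the shifts -/
noncomputable def muD (j : Fin 2) : ℂ := if j = 0 then -(11 / 2) else -(13 / 2)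

/-- completed function, analytic normalisation -/
noncomputable def LamS (s : ℂ) : ℂ := 2 * LamM (s + 11 / 2)

/-- `L(Δ, s)` -/
noncomputable def LM (s : ℂ) : ℂ := ((2 * Real.pi : ℝ) : ℂ) ^ s * (Gamma s)⁻¹ * LamM s

lemma LM_eq (s : ℂ) : LM s = LamM s * (2 / Gammaℂ s) := by
  unfold LM
  have h2 : (2 * (Real.pi : ℂ)) ^ (-s) ≠ 0 := by
    rw [Ne, Complex.cpow_eq_zero_iff]
    rintro ⟨h, -⟩
    have : (2 * Real.pi : ℝ) = 0 := by exact_mod_cast h
    have := Real.pi_pos
    linarith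
  rw [Gammaℂ_def]
  have h3 : ((2 * Real.pi : ℝ) : ℂ) ^ s = ((2 * (Real.pi : ℂ)) ^ (-s))⁻¹ := by
    rw [Complex.cpow_neg, inv_inv]
    push_cast
    rfl
  rw [h3]
  generalize (2 * (Real.pi : ℂ)) ^ (-s) = x at h2
  rw [div_eq_mul_inv, mul_inv, mul_inv]
  ring

lemma LM_eq_L (s : ℂ) : LM s = ModularForm.L (k := 12) (by norm_num) CuspForm.discriminant s := by
  rw [LM_eq, LamM_eq]
  rfl

lemma LM_series {s : ℂ} (hs : 7 < s.re) : HasSum (fun n : ℕ => ((tau n : ℤ) : ℂ) * (n : ℂ) ^ (-s)) (LM s) := by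
  have h := CuspForm.hasSum_L (k := 12) (by norm_num) CuspForm.discriminant (s := s) (by push_cast; linarith)
  rw [Subgroup.strictWidthInfty_SL2Z] at h
  rw [LM_eq_L]
  simp only [Complex.ofReal_one, Complex.one_cpow, one_mul] at h
  convert h using 2 with n
  rw [coeff_tau, Complex.cpow_neg, div_eq_mul_inv]

lemma LL_eq (s : ℂ) : LL muD LamS s = LM (s + 11 / 2) := by
  unfold LL LamS
  rw [Fin.prod_univ_two, LM_eq]
  have e1 : s - muD 0 = s + 11 / 2 := by simp [muD]
  have e2 : s - muD 1 = s + 11 / 2 + 1 := by simp [muD]; ring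
  rw [e1, e2, ← mul_inv, Gammaℝ_mul_Gammaℝ_add_one, div_eq_mul_inv]
  ring

lemma la_series {s : ℂ} (hs : 2 ≤ s.re) : HasSum (fun n : ℕ => (la n : ℂ) * (n : ℂ) ^ (-s)) (LL muD LamS s) := by
  rw [LL_eq]
  have hre : (s + 11 / 2 : ℂ).re = s.re + 11 / 2 := by
    have : (11 / 2 : ℂ) = ((11 / 2 : ℝ) : ℂ) := by push_cast; rfl
    rw [this, add_re, ofReal_re]
  have h := LM_series (s := s + 11 / 2) (by rw [hre]; linarith)
  convert h using 2 with n
  rcases Nat.eq_zero_or_pos n with rfl | hn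
  · rw [la_zero, tau_zero]; simp
  · have hn0 : (n : ℂ) ≠ 0 := by exact_mod_cast hn.ne'
    have hnr : (0 : ℝ) < n := by exact_mod_cast hn
    unfold la
    rw [neg_add, Complex.cpow_add _ _ hn0, Complex.ofReal_div, Complex.ofReal_cpow hnr.le, Complex.cpow_neg _ (11 / 2)]
    push_cast
    rw [div_eq_mul_inv]
    ring

lemma isCo_la : IsCo (LL muD LamS) (fun n => (la n : ℂ)) :=
  ⟨by simp [la_zero], fun _ hs => la_series hs⟩

lemma muD_re (j : Fin 2) : (muD j).re < 1 / 2 := by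
  unfold muD
  split_ifs
  · have : (-(11 / 2) : ℂ) = ((-(11 / 2) : ℝ) : ℂ) := by push_cast; rfl
    rw [this, ofReal_re]; norm_num
  · have : (-(13 / 2) : ℂ) = ((-(13 / 2) : ℝ) : ℂ) := by push_cast; rfl
    rw [this, ofReal_re]; norm_num

lemma LamS_diff : Differentiable ℂ LamS :=
  (LamM_diff.comp (differentiable_id.add_const _)).const_mul 2

lemma LamS_fe (s : ℂ) : LamS s = 1 * ((1 : ℝ) : ℂ) ^ (1 / 2 - s) * conj (LamS (1 - conj s)) := by
  rw [Complex.ofReal_one, Complex.one_cpow, one_mul, one_mul]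
  unfold LamS
  rw [map_mul, ← LamM_conj]
  have e : conj (1 - conj s + 11 / 2) = 12 - (s + 11 / 2) := by
    rw [map_add, map_sub, map_one, Complex.conj_conj, map_div₀]
    simp only [map_ofNat]
    ring
  rw [e, LamM_fe]
  congr 1
  exact (map_ofNat (starRingEnd ℂ) 2).symm

theorem exists_obj : ∃ O : Obj, O.L = LL muD LamS ∧ O.lam = (fun n => (la n : ℂ)) ∧ O.X = LamS := by
  have hsum : Summable (fun p : Nat.Primes => ((p : ℕ) : ℝ) ^ (-(3 / 2) : ℝ)) :=
    Nat.Primes.summable_rpow.2 (by norm_num)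
  obtain ⟨O, hL, hX⟩ := mk_obj facts.eul facts.obj (m := 2) (N := 1) (μ := muD) (Λ := LamS) one_pos muD_re
    LamS_diff ⟨1, norm_one, LamS_fe⟩ (fun a b => by
      obtain ⟨M, hM, h⟩ := LamM_strip (a + 11 / 2) (b + 11 / 2)
      refine ⟨2 * M, 0, fun s h1 h2 => ?_⟩
      have hre : (s + 11 / 2 : ℂ).re = s.re + 11 / 2 := by
        have : (11 / 2 : ℂ) = ((11 / 2 : ℝ) : ℂ) := by push_cast; rfl
        rw [this, add_re, ofReal_re]
      have h3 := h (s + 11 / 2) (by rw [hre]; linarith) (by rw [hre]; linarith)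
      unfold LamS
      rw [norm_mul, Real.rpow_zero, mul_one]
      have h4 := Real.add_one_le_exp (2 * M)
      have h5 : ‖(2 : ℂ)‖ = 2 := by norm_num
      rw [h5]
      linarith)
    (ι := Nat.Primes) (D := 2) (q := fun p => (p : ℕ)) (β := fun p j => sat p j) (fun p => p.2.two_le) hsum
    (fun p j => sat_le p.2 j) (fun s hs => by
      rw [(euler (s := s) (by linarith)).tprod_eq]
      exact (la_series hs).tsum_eq.symm)
  refine ⟨O, hL, ?_, ?_⟩
  · have h := isCo O.toLFn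
    rw [hL] at h
    exact h.unique isCo_la
  · rw [hX]
    funext s
    rw [Complex.ofReal_one, Complex.one_cpow, one_mul]

theorem concl_Delta : Concl (LL muD LamS) (fun n => (la n : ℂ)) LamS (1 / 2) := by
  obtain ⟨O, hL, hl, hX⟩ := exists_obj
  have h := concl facts O
  rw [hL, hl, hX] at h
  exact h

end Pool.Agent.H575.RD
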