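import Pool.Graph.R_pool_sql_team_seeded_2aa45f1a.Q5.SZ.Had

/-!
# The sum over the zeros of a symmetric entire function of order less than two, all of whose zeros lie on
# the line `Re s = 1/2` (helper575)
-/

set_option autoImplicit false

namespace Pool.Agent.H575.RD

open Complex MeasureTheory Filter Topology Set
open scoped ComplexConjugate
open Pool.Agent.Q5.SZ (tz tz_zero zeros_sum)
open Pool.Agent.Q5.BP (mu)

/-- an even entire function is an entire function of `z²` -/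
theorem exists_sq {f : ℂ → ℂ} (hf : Differentiable ℂ f) (hev : ∀ z, f (-z) = f z) :
    ∃ F : ℂ → ℂ, Differentiable ℂ F ∧ ∀ z, F (z ^ 2) = f z := by
  have hsq : ∀ z w : ℂ, z ^ 2 = w ^ 2 → f z = f w := by
    intro z w h
    rcases sq_eq_sq_iff_eq_or_eq_neg.1 h with h | h
    · rw [h]
    · rw [h, hev]
  let X : ℂ → ℂ := fun y => f (y ^ (1 / 2 : ℂ))
  have hroot : ∀ y : ℂ, (y ^ (1 / 2 : ℂ)) ^ 2 = y := by
    intro y
    have h := Complex.cpow_nat_inv_pow y two_ne_zero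
    have e : (1 / 2 : ℂ) = ((2 : ℕ) : ℂ)⁻¹ := by norm_num
    rw [e]
    exact h
  have hX : ∀ y w : ℂ, w ^ 2 = y → X y = f w := by
    intro y w h
    exact hsq _ _ (by rw [hroot, h])
  have hd : DifferentiableOn ℂ X (Set.univ \ {0}) := by
    intro y hy
    have hy0 : y ≠ 0 := fun h => hy.2 (by rw [h]; rfl)
    apply DifferentiableAt.differentiableWithinAt
    by_cases hs : y ∈ Complex.slitPlane
    · have h1 : DifferentiableAt ℂ (fun y : ℂ => y ^ (1 / 2 : ℂ)) y :=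
        differentiableAt_id.cpow_const hs
      exact (hf _).comp y h1
    · have hs' : -y ∈ Complex.slitPlane := by
        rw [Complex.mem_slitPlane_iff] at hs ⊢
        push Not at hs
        left
        rw [Complex.neg_re]
        have h2 : y.re ≠ 0 := fun h => hy0 (Complex.ext h hs.2)
        have h3 := lt_of_le_of_ne hs.1 h2
        linarith
      have h1 : DifferentiableAt ℂ (fun y : ℂ => f (Complex.I * (-y) ^ (1 / 2 : ℂ))) y := by
        have h2 : DifferentiableAt ℂ (fun y : ℂ => (-y) ^ (1 / 2 : ℂ)) y :=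
          (differentiableAt_id.neg).cpow_const hs'
        exact (hf _).comp y (h2.const_mul Complex.I)
      have h3 : X = fun y : ℂ => f (Complex.I * (-y) ^ (1 / 2 : ℂ)) := by
        funext y
        apply hX
        rw [mul_pow, hroot, Complex.I_sq]
        ring
      rw [h3]
      exact h1
  have hc : ContinuousAt X 0 := by
    have h1 : ContinuousAt (fun y : ℂ => y ^ (1 / 2 : ℂ)) 0 :=
      Complex.continuousAt_cpow_const_of_re_pos (by left; simp) (by norm_num)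
    exact (hf.continuous.continuousAt).comp h1
  have hXd : DifferentiableOn ℂ X Set.univ :=
    (Complex.differentiableOn_compl_singleton_and_continuousAt_iff univ_mem).1 ⟨hd, hc⟩
  exact ⟨X, differentiableOn_univ.1 hXd, fun z => hX _ _ rfl⟩

section

variable {X : ℂ → ℂ}

/-- the function with the zeros `± i √(1/4 + γ²)` -/
theorem exists_g (hX : Differentiable ℂ X) (hfe : ∀ s, X (1 - s) = X s) {K : ℝ} (hK : 0 ≤ K)
    (hgr : ∀ s, ‖X s‖ ≤ Real.exp (K * (1 + ‖s‖) ^ (3 / 2 : ℝ))) (hz : ∀ s, X s = 0 → s.re = 1 / 2) :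
    ∃ g : ℂ → ℂ, Differentiable ℂ g ∧ g 0 ≠ 0 ∧
    (∃ K : ℝ, 0 ≤ K ∧ ∀ w, ‖g w‖ ≤ Real.exp (K * (1 + ‖w‖) ^ (3 / 2 : ℝ))) ∧ (∀ w, g w = 0 → w.re = 0) ∧
    deriv (fun z => deriv g z / g z) 0 = 2 * (deriv X 1 / X 1) ∧
    (∀ (w v : ℂ), v ^ 2 = 1 / 4 + w ^ 2 → g w = X (1 / 2 + v)) ∧
    (∀ (w v : ℂ), w ≠ 0 → v ≠ 0 → v ^ 2 = 1 / 4 + w ^ 2 → analyticOrderAt g w = analyticOrderAt X (1 / 2 + v)) := by
  obtain ⟨F, hF, hFz⟩ := exists_sq (f := fun z => X (1 / 2 + z)) (hX.comp (by fun_prop)) (fun z => by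
    show X (1 / 2 + -z) = X (1 / 2 + z)
    rw [← hfe]
    congr 1
    ring)
  have hFx : ∀ s, F ((s - 1 / 2) ^ 2) = X s := fun s => by
    rw [hFz]
    congr 1
    ring
  have hX1 : X 1 ≠ 0 := fun h => by
    have := hz 1 h
    norm_num at this
  have hval : ∀ (w v : ℂ), v ^ 2 = 1 / 4 + w ^ 2 → F (1 / 4 + w ^ 2) = X (1 / 2 + v) := by
    intro w v h
    rw [← hFx, ← h]
    congr 1
    ring
  have hroot : ∀ w : ℂ, ∃ v : ℂ, v ^ 2 = 1 / 4 + w ^ 2 := fun w =>
    IsAlgClosed.exists_pow_nat_eq _ (by norm_num)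
  have hg0 : F (1 / 4 + 0 ^ 2) = X 1 := by
    rw [hval 0 (1 / 2) (by norm_num)]
    rw [show (1 / 2 + 1 / 2 : ℂ) = 1 by norm_num]
  refine ⟨fun w => F (1 / 4 + w ^ 2), ?_, ?_, ⟨4 * K, by linarith, fun w => ?_⟩, fun w hw => ?_, ?_, hval, ?_⟩
  · exact hF.comp (by fun_prop)
  · show F (1 / 4 + 0 ^ 2) ≠ 0
    rw [hg0]
    exact hX1
  · obtain ⟨v, hv⟩ := hroot w
    show ‖F (1 / 4 + w ^ 2)‖ ≤ _
    rw [hval w v hv]
    refine (hgr _).trans (Real.exp_le_exp.2 ?_)
    have hn := norm_nonneg w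
    have h1 : ‖v‖ ^ 2 ≤ (1 / 2 + ‖w‖) ^ 2 := by
      rw [← norm_pow, hv]
      refine (norm_add_le _ _).trans ?_
      rw [norm_pow, norm_div, norm_one, Complex.norm_ofNat]
      nlinarith
    have h2 : ‖v‖ ≤ 1 / 2 + ‖w‖ := le_of_sq_le_sq h1 (by positivity)
    have h3 : ‖1 / 2 + v‖ ≤ 1 + ‖w‖ := by
      refine (norm_add_le _ _).trans ?_
      rw [norm_div, norm_one, Complex.norm_ofNat]
      linarith
    have e0 : 0 ≤ (1 + ‖w‖) ^ (3 / 2 : ℝ) := by positivity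
    have h4 : (1 + ‖1 / 2 + v‖) ^ (3 / 2 : ℝ) ≤ 4 * (1 + ‖w‖) ^ (3 / 2 : ℝ) := by
      calc (1 + ‖1 / 2 + v‖) ^ (3 / 2 : ℝ) ≤ (2 * (1 + ‖w‖)) ^ (3 / 2 : ℝ) :=
            Real.rpow_le_rpow (by positivity) (by linarith) (by norm_num)
        _ = 2 ^ (3 / 2 : ℝ) * (1 + ‖w‖) ^ (3 / 2 : ℝ) := Real.mul_rpow (by norm_num) (by linarith)
        _ ≤ 4 * (1 + ‖w‖) ^ (3 / 2 : ℝ) := by
          apply mul_le_mul_of_nonneg_right _ e0
          calc (2 : ℝ) ^ (3 / 2 : ℝ) ≤ 2 ^ (2 : ℝ) :=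
                Real.rpow_le_rpow_of_exponent_le (by norm_num) (by norm_num)
            _ = 4 := by norm_num
    have := mul_le_mul_of_nonneg_left h4 hK
    linarith
  · obtain ⟨v, hv⟩ := hroot w
    have h1 : F (1 / 4 + w ^ 2) = 0 := hw
    rw [hval w v hv] at h1
    have h2 := hz _ h1
    have h3 : v.re = 0 := by
      rw [add_re] at h2
      have : ((1 : ℂ) / 2).re = 1 / 2 := by simp
      rw [this] at h2
      linarith
    -- `w ^ 2 = -(v.im ^ 2) - 1/4`
    have h4 := congrArg Complex.re hv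
    have h5 := congrArg Complex.im hv
    rw [sq, sq, mul_re, add_re, mul_re, h3] at h4
    rw [sq, sq, mul_im, add_im, mul_im, h3] at h5
    have e1 : ((1 : ℂ) / 4).re = 1 / 4 := by simp
    have e2 : ((1 : ℂ) / 4).im = 0 := by simp
    rw [e1] at h4
    rw [e2] at h5
    have h6 : w.re * w.im = 0 := by linarith
    rcases mul_eq_zero.1 h6 with h7 | h7
    · exact h7
    · rw [h7] at h4
      nlinarith [sq_nonneg w.re, sq_nonneg v.im]
  · -- the derivative
    have hd1 : ∀ w : ℂ, HasDerivAt (fun w => F (1 / 4 + w ^ 2)) (deriv F (1 / 4 + w ^ 2) * (2 * w)) w := by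
      intro w
      have a1 : HasDerivAt (fun w : ℂ => 1 / 4 + w ^ 2) (2 * w) w := by
        have := (hasDerivAt_pow 2 w).const_add (1 / 4 : ℂ)
        simpa using this
      exact (hF _).hasDerivAt.comp w a1
    have hq : DifferentiableAt ℂ (fun w : ℂ => deriv F (1 / 4 + w ^ 2) / F (1 / 4 + w ^ 2)) 0 := by
      refine DifferentiableAt.div ?_ ?_ ?_
      · have h1 : Differentiable ℂ (deriv F) := hF.deriv
        exact (h1 _).comp (0 : ℂ) (by fun_prop)
      · exact (hF _).comp (0 : ℂ) (by fun_prop)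
      · rw [hg0]; exact hX1
    have e1 : (fun z => deriv (fun w => F (1 / 4 + w ^ 2)) z / F (1 / 4 + z ^ 2)) =
        fun z => (2 * z) * (deriv F (1 / 4 + z ^ 2) / F (1 / 4 + z ^ 2)) := by
      funext z
      rw [(hd1 z).deriv]
      ring
    show deriv (fun z => deriv (fun w => F (1 / 4 + w ^ 2)) z / F (1 / 4 + z ^ 2)) 0 = _
    rw [e1]
    have h2 : HasDerivAt (fun z : ℂ => 2 * z) 2 0 := by simpa using (hasDerivAt_id (0 : ℂ)).const_mul 2
    have h3 := h2.mul hq.hasDerivAt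
    have h4 : deriv (fun z : ℂ => (2 * z) * (deriv F (1 / 4 + z ^ 2) / F (1 / 4 + z ^ 2))) 0 = _ := h3.deriv
    rw [h4, hg0]
    have h5 : HasDerivAt X (deriv F ((1 - 1 / 2) ^ 2) * (2 * (1 - 1 / 2))) 1 := by
      have a1 : HasDerivAt (fun s : ℂ => (s - 1 / 2) ^ 2) (2 * (1 - 1 / 2)) 1 := by
        have := ((hasDerivAt_id (1 : ℂ)).sub_const (1 / 2)).fun_pow 2
        simpa using this
      have a2 := (hF ((1 - 1 / 2) ^ 2)).hasDerivAt.comp (1 : ℂ) a1
      exact a2.congr_of_eventuallyEq (Eventually.of_forall fun s => (hFx s).symm)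
    have h7 : deriv F (1 / 4 + 0 ^ 2) = deriv X 1 := by
      rw [h5.deriv]
      rw [show (1 / 4 + 0 ^ 2 : ℂ) = (1 - 1 / 2) ^ 2 by norm_num]
      norm_num
    rw [h7]
    ring
  · intro w v hw hv h
    have a1 : AnalyticAt ℂ (fun w : ℂ => 1 / 4 + w ^ 2) w := by fun_prop
    have a2 : deriv (fun w : ℂ => 1 / 4 + w ^ 2) w ≠ 0 := by
      have : HasDerivAt (fun w : ℂ => 1 / 4 + w ^ 2) (2 * w) w := by
        have := (hasDerivAt_pow 2 w).const_add (1 / 4 : ℂ)
        simpa using this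
      rw [this.deriv]
      exact mul_ne_zero two_ne_zero hw
    have a3 := analyticOrderAt_comp_of_deriv_ne_zero (f := F) a1 a2
    have b1 : AnalyticAt ℂ (fun s : ℂ => (s - 1 / 2) ^ 2) (1 / 2 + v) := by fun_prop
    have b2 : deriv (fun s : ℂ => (s - 1 / 2) ^ 2) (1 / 2 + v) ≠ 0 := by
      have : HasDerivAt (fun s : ℂ => (s - 1 / 2) ^ 2) (2 * (1 / 2 + v - 1 / 2)) (1 / 2 + v) := by
        have := ((hasDerivAt_id (1 / 2 + v)).sub_const (1 / 2)).fun_pow 2
        simpa using this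
      rw [this.deriv]
      refine mul_ne_zero two_ne_zero ?_
      rw [add_sub_cancel_left]
      exact hv
    have b3 := analyticOrderAt_comp_of_deriv_ne_zero (f := F) b1 b2
    have e1 : F ∘ (fun w : ℂ => 1 / 4 + w ^ 2) = fun w => F (1 / 4 + w ^ 2) := rfl
    have e2 : F ∘ (fun s : ℂ => (s - 1 / 2) ^ 2) = X := funext hFx
    rw [e1] at a3
    rw [e2] at b3
    rw [a3, b3]
    congr 1
    rw [← h]
    ring

/-- **the sum over the zeros** -/
theorem even_sum (hX : Differentiable ℂ X) (hfe : ∀ s, X (1 - s) = X s) {K : ℝ} (hK : 0 ≤ K)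
    (hgr : ∀ s, ‖X s‖ ≤ Real.exp (K * (1 + ‖s‖) ^ (3 / 2 : ℝ))) (hz : ∀ s, X s = 0 → s.re = 1 / 2)
    (hc0 : X (1 / 2) ≠ 0) :
    ∃ c : ℝ, 2 * (deriv X 1 / X 1) = c ∧
      HasSum (fun γ : {γ : ℝ // X (1 / 2 + γ * I) = 0} =>
        (analyticOrderNatAt X (1 / 2 + (γ : ℝ) * I) : ℝ) / (1 / 4 + (γ : ℝ) ^ 2)) c := by
  obtain ⟨g, hgd, hg0, ⟨K, hK, hgr⟩, hgz, hgD, hgv, hgo⟩ := exists_g hX hfe hK hgr hz
  obtain ⟨c, hc, hsum⟩ := zeros_sum hgd hg0 hK hgr hgz
  refine ⟨c, by rw [← hgD]; exact hc, ?_⟩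
  set Go := {γ : ℝ // X (1 / 2 + γ * I) = 0} with hGo
  have him : ∀ γ : Go, (γ : ℝ) ≠ 0 := by
    intro γ h
    have h2 := γ.2
    rw [h, ofReal_zero, zero_mul, add_zero] at h2
    exact hc0 h2
  set φ : Go → ℝ := fun γ => if 0 < (γ : ℝ) then Real.sqrt (1 / 4 + (γ : ℝ) ^ 2)
    else -Real.sqrt (1 / 4 + (γ : ℝ) ^ 2) with hφ
  have hφ2 : ∀ γ, φ γ ^ 2 = 1 / 4 + (γ : ℝ) ^ 2 := by
    intro γ
    have h0 : 0 ≤ 1 / 4 + (γ : ℝ) ^ 2 := by positivity
    rw [hφ]
    simp only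
    split_ifs
    · exact Real.sq_sqrt h0
    · rw [neg_sq]; exact Real.sq_sqrt h0
  have hφp : ∀ γ : Go, 0 < (γ : ℝ) → 0 < φ γ := by
    intro γ h
    rw [hφ]
    simp only
    rw [if_pos h]
    positivity
  have hφn : ∀ γ : Go, ¬ 0 < (γ : ℝ) → φ γ < 0 := by
    intro γ h
    rw [hφ]
    simp only
    rw [if_neg h]
    have : 0 < Real.sqrt (1 / 4 + (γ : ℝ) ^ 2) := by positivity
    linarith
  have hinj : Function.Injective φ := by
    intro γ γ' h
    have h1 := hφ2 γ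
    rw [h, hφ2 γ'] at h1
    have h2 : (γ : ℝ) ^ 2 = (γ' : ℝ) ^ 2 := by linarith
    have h3 : (γ : ℝ) = (γ' : ℝ) := by
      rcases sq_eq_sq_iff_eq_or_eq_neg.1 h2 with h4 | h4
      · exact h4
      · exfalso
        by_cases h5 : 0 < (γ : ℝ)
        · have a := hφp γ h5
          have b := hφn γ' (by linarith)
          rw [h] at a
          linarith
        · have a := hφn γ h5
          have h6 := him γ
          have h7 : (γ : ℝ) < 0 := lt_of_le_of_ne (not_lt.1 h5) h6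
          have b := hφp γ' (by linarith)
          rw [h] at a
          linarith
    exact Subtype.ext h3
  have hsupp : ∀ t : ℝ, t ∉ Set.range φ → tz g t = 0 := by
    intro t ht
    by_contra hne
    have h1 : g (t * I) = 0 := by
      by_contra h
      exact hne (tz_zero hgd h)
    obtain ⟨v, hv⟩ : ∃ v : ℂ, v ^ 2 = 1 / 4 + ((t : ℂ) * I) ^ 2 := IsAlgClosed.exists_pow_nat_eq _ (by norm_num)
    have h2 := h1
    rw [hgv _ v hv] at h2
    have h3 := hz _ h2
    have h4 : v.re = 0 := by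
      rw [add_re] at h3
      have : ((1 : ℂ) / 2).re = 1 / 2 := by simp
      rw [this] at h3
      linarith
    have h5 : t ^ 2 = 1 / 4 + v.im ^ 2 := by
      have h6 := congrArg Complex.re hv
      rw [mul_pow, I_sq, sq, mul_re, h4] at h6
      have e1 : (1 / 4 + (t : ℂ) ^ 2 * -1).re = 1 / 4 - t ^ 2 := by
        have : (1 / 4 + (t : ℂ) ^ 2 * -1) = ((1 / 4 - t ^ 2 : ℝ) : ℂ) := by push_cast; ring
        rw [this, ofReal_re]
      rw [e1] at h6
      linarith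
    have ht0 : t ≠ 0 := by
      rintro rfl
      nlinarith [sq_nonneg v.im]
    -- the zero with the sign of `t`
    set γ : ℝ := if 0 < t then |v.im| else -|v.im| with hγ
    have hγ2 : γ ^ 2 = v.im ^ 2 := by
      rw [hγ]
      split_ifs
      · exact sq_abs _
      · rw [neg_sq]; exact sq_abs _
    have hx0 : X (1 / 2 + γ * I) = 0 := by
      rw [← hgv ((t : ℂ) * I) ((γ : ℂ) * I) ?_, h1]
      rw [mul_pow, mul_pow, I_sq]
      have e2 : (γ : ℂ) ^ 2 = ((v.im ^ 2 : ℝ) : ℂ) := by rw [← hγ2]; push_cast; ring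
      have e3 : (t : ℂ) ^ 2 = ((1 / 4 + v.im ^ 2 : ℝ) : ℂ) := by rw [← h5]; push_cast; ring
      rw [e2, e3]
      push_cast
      ring
    set ρ : Go := ⟨γ, hx0⟩ with hρ
    have hρim : (ρ : ℝ) = γ := rfl
    have hγ0 : γ ≠ 0 := by
      have := him ρ
      rwa [hρim] at this
    apply ht
    refine ⟨ρ, ?_⟩
    have hsq : Real.sqrt (1 / 4 + γ ^ 2) = |t| := by
      rw [hγ2, ← h5, Real.sqrt_sq_eq_abs]
    rw [hφ]
    simp only
    rw [hρim, hsq]
    rcases lt_or_gt_of_ne ht0 with h6 | h6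
    · have h7 : γ = -|v.im| := by rw [hγ, if_neg (by linarith)]
      have h8 : ¬ 0 < γ := by rw [h7]; linarith [abs_nonneg v.im]
      rw [if_neg h8, abs_of_neg h6, neg_neg]
    · have h7 : γ = |v.im| := by rw [hγ, if_pos h6]
      have h8 : 0 < γ := lt_of_le_of_ne (by rw [h7]; exact abs_nonneg _) hγ0.symm
      rw [if_pos h8, abs_of_pos h6]
  have hsum2 := (hinj.hasSum_iff hsupp).2 hsum
  have hterm : ∀ γ : Go, (tz g ∘ φ) γ =
      (analyticOrderNatAt X (1 / 2 + (γ : ℝ) * I) : ℝ) / (1 / 4 + (γ : ℝ) ^ 2) := by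
    intro γ
    have e3 : analyticOrderAt g ((φ γ : ℂ) * I) = analyticOrderAt X (1 / 2 + ((γ : ℝ) : ℂ) * I) := by
      apply hgo
      · have : φ γ ≠ 0 := by
          intro h
          have := hφ2 γ
          rw [h] at this
          nlinarith [sq_nonneg (γ : ℝ)]
        exact mul_ne_zero (by exact_mod_cast this) I_ne_zero
      · exact mul_ne_zero (by exact_mod_cast him γ) I_ne_zero
      · rw [mul_pow, mul_pow, I_sq]
        have e4 : ((φ γ : ℝ) : ℂ) ^ 2 = ((1 / 4 + (γ : ℝ) ^ 2 : ℝ) : ℂ) := by rw [← hφ2 γ]; push_cast; ring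
        rw [e4]
        push_cast
        ring
    show tz g (φ γ) = _
    unfold Pool.Agent.Q5.SZ.tz Pool.Agent.Q5.BP.mu analyticOrderNatAt
    rw [e3, hφ2 γ]
  convert hsum2 using 1
  exact (funext hterm).symm

end

end Pool.Agent.H575.RD
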