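import Pool.Agent.H575.RD.D4
import Pool.Agent.H575.RD.Even

set_option autoImplicit false

/-!
# Ramanujan's L-function: positivity on the real axis, growth, and the sum over the zeros
-/

namespace Pool.Agent.H575.RD

open Complex MeasureTheory Filter Topology Set MatrixGroups
open UpperHalfPlane hiding I
open scoped ComplexConjugate Real ENNReal
open Pool.Agent.X3.Tau Pool.Agent.Q286.GB

lemma Dl_nonneg (y : ℝ) : 0 ≤ Dl y := by
  unfold Dl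
  refine mul_nonneg (Real.exp_pos _).le ?_
  have hterm : ∀ n : ℕ, 0 ≤ (1 - Real.exp (-2 * Real.pi * ((n : ℝ) + 1) * y)) ^ 24 := fun n => by positivity
  by_cases h : Multipliable fun n : ℕ => (1 - Real.exp (-2 * Real.pi * ((n : ℝ) + 1) * y)) ^ 24
  · exact ge_of_tendsto' h.hasProd fun s => Finset.prod_nonneg fun n _ => hterm n
  · rw [tprod_eq_one_of_not_multipliable h]
    exact zero_le_one

lemma Dl_pos {y : ℝ} (hy : 0 < y) : 0 < Dl y := by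
  refine lt_of_le_of_ne (Dl_nonneg y) fun h => ?_
  have h1 := Dl_eq hy
  rw [← h, CuspForm.coe_discriminant, Complex.ofReal_zero] at h1
  exact ModularForm.discriminant_ne_zero _ h1

/-- the real Mellin transform -/
noncomputable def MR (σ : ℝ) : ℝ := ∫ y in Ioi (0 : ℝ), y ^ (σ - 1) * Dl y

lemma MR_int (σ : ℝ) : IntegrableOn (fun y : ℝ => y ^ (σ - 1) * Dl y) (Ioi 0) := by
  refine (norm_int σ).congr_fun (fun y hy => ?_) measurableSet_Ioi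
  have hy0 : (0 : ℝ) < y := hy
  simp only
  rw [abs_of_pos (Dl_pos hy0)]

lemma MR_pos (σ : ℝ) : 0 < MR σ := by
  unfold MR
  rw [setIntegral_pos_iff_support_of_nonneg_ae ?_ (MR_int σ)]
  · have h : (Function.support fun y : ℝ => y ^ (σ - 1) * Dl y) ∩ Ioi 0 = Ioi 0 := by
      refine inter_eq_right.2 fun y hy => ?_
      have hy0 : (0 : ℝ) < y := hy
      have := Dl_pos hy0
      have : 0 < y ^ (σ - 1) * Dl y := by positivity
      exact this.ne'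
    rw [h]
    simp
  · refine (ae_restrict_iff' measurableSet_Ioi).2 (Eventually.of_forall fun y hy => ?_)
    have hy0 : (0 : ℝ) < y := hy
    have := Dl_pos hy0
    show (0 : ℝ) ≤ y ^ (σ - 1) * Dl y
    positivity

lemma LamM_real (σ : ℝ) : LamM σ = ((MR σ : ℝ) : ℂ) := by
  unfold LamM mellin MR
  refine Eq.trans ?_ (integral_ofReal (𝕜 := ℂ) (f := fun y : ℝ => y ^ (σ - 1) * Dl y))
  refine setIntegral_congr_fun measurableSet_Ioi fun y hy => ?_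
  have hy0 : (0 : ℝ) < y := hy
  show (y : ℂ) ^ ((σ : ℂ) - 1) • ((Dl y : ℝ) : ℂ) = ((y ^ (σ - 1) * Dl y : ℝ) : ℂ)
  rw [smul_eq_mul, Complex.ofReal_mul, Complex.ofReal_cpow hy0.le]
  push_cast
  rfl

lemma LamM_le (s : ℂ) : ‖LamM s‖ ≤ MR s.re := by
  refine (norm_LamM_le s).trans (le_of_eq ?_)
  unfold MR
  refine setIntegral_congr_fun measurableSet_Ioi fun y hy => ?_
  have hy0 : (0 : ℝ) < y := hy
  show y ^ (s.re - 1) * |Dl y| = y ^ (s.re - 1) * Dl y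
  rw [abs_of_pos (Dl_pos hy0)]

lemma MR_fe (σ : ℝ) : MR (12 - σ) = MR σ := by
  have h := LamM_fe (σ : ℂ)
  have e : (12 - (σ : ℂ)) = ((12 - σ : ℝ) : ℂ) := by push_cast; ring
  rw [e, LamM_real, LamM_real] at h
  exact_mod_cast h

/-- the Gamma function -/
lemma Gamma_le' {x : ℝ} (hx : 2 ≤ x) : Real.Gamma x ≤ Real.exp (2 * (x + 1) ^ (3 / 2 : ℝ)) := by
  set n : ℕ := ⌈x⌉₊ with hn
  have h1 : x ≤ n := Nat.le_ceil x
  have h2 : (n : ℝ) ≤ x + 1 := (Nat.ceil_lt_add_one (by linarith)).le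
  have h3 : Real.Gamma x ≤ Real.Gamma (n + 1) :=
    Real.Gamma_strictMonoOn_Ici.monotoneOn (by simpa using hx) (by simp only [mem_Ici]; linarith) (by linarith)
  rw [Real.Gamma_nat_eq_factorial] at h3
  have h4 : ((n.factorial : ℕ) : ℝ) ≤ (n : ℝ) ^ n := by exact_mod_cast Nat.factorial_le_pow n
  have hn0 : (0 : ℝ) < n := by linarith
  have h5 : (n : ℝ) ^ n = Real.exp (n * Real.log n) := by
    rw [mul_comm, Real.exp_mul, Real.exp_log hn0, Real.rpow_natCast]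
  have h6 : Real.log n ≤ 2 * (n : ℝ) ^ (1 / 2 : ℝ) := by
    have := Real.log_le_rpow_div hn0.le (ε := 1 / 2) (by norm_num)
    linarith
  have h7 : (n : ℝ) * Real.log n ≤ 2 * (n : ℝ) ^ (3 / 2 : ℝ) := by
    have e : (n : ℝ) ^ (3 / 2 : ℝ) = n * (n : ℝ) ^ (1 / 2 : ℝ) := by
      nth_rewrite 2 [← Real.rpow_one (n : ℝ)]
      rw [← Real.rpow_add hn0]
      norm_num
    rw [e]
    nlinarith
  have h8 : (n : ℝ) ^ (3 / 2 : ℝ) ≤ (x + 1) ^ (3 / 2 : ℝ) := Real.rpow_le_rpow hn0.le h2 (by norm_num)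
  refine h3.trans (h4.trans ?_)
  rw [h5]
  exact Real.exp_le_exp.2 (by linarith)

lemma MR_large : ∃ C : ℝ, 0 < C ∧ ∀ σ : ℝ, 8 ≤ σ → MR σ ≤ C * Real.exp (2 * (σ + 1) ^ (3 / 2 : ℝ)) := by
  have hs8 : Summable fun n : ℕ => ‖((tau n : ℤ) : ℂ) * (n : ℂ) ^ (-(8 : ℂ))‖ :=
    (LM_series (s := 8) (by norm_num)).summable.norm
  refine ⟨1 + ∑' n : ℕ, ‖((tau n : ℤ) : ℂ) * (n : ℂ) ^ (-(8 : ℂ))‖, by positivity, fun σ hσ => ?_⟩
  have hre : ((σ : ℂ)).re = σ := ofReal_re σ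
  have h1 : ‖LM σ‖ ≤ ∑' n : ℕ, ‖((tau n : ℤ) : ℂ) * (n : ℂ) ^ (-(8 : ℂ))‖ := by
    rw [← (LM_series (s := σ) (by rw [hre]; linarith)).tsum_eq]
    refine tsum_of_norm_bounded hs8.hasSum fun n => ?_
    rcases Nat.eq_zero_or_pos n with rfl | hn
    · rw [tau_zero]; simp
    · rw [norm_mul, norm_mul]
      refine mul_le_mul_of_nonneg_left ?_ (norm_nonneg _)
      rw [Complex.norm_natCast_cpow_of_pos hn, Complex.norm_natCast_cpow_of_pos hn]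
      refine Real.rpow_le_rpow_of_exponent_le (by exact_mod_cast hn) ?_
      rw [neg_re, neg_re, hre]
      norm_num
      exact hσ
  have hπ := Real.pi_pos
  have hp1 : (1 : ℝ) ≤ 2 * Real.pi := by have := Real.pi_gt_three; linarith
  have hL : LM σ * (Gamma σ * (((2 * Real.pi : ℝ) : ℂ) ^ (σ : ℂ))⁻¹) = LamM σ := by
    unfold LM
    have a1 : Gamma (σ : ℂ) ≠ 0 := Gamma_ne_zero_of_re_pos (by rw [hre]; linarith)
    have a2 : ((2 * Real.pi : ℝ) : ℂ) ^ (σ : ℂ) ≠ 0 := by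
      rw [Ne, Complex.cpow_eq_zero_iff]
      rintro ⟨h, -⟩
      have : (2 * Real.pi : ℝ) = 0 := by exact_mod_cast h
      linarith
    field_simp
  have h2 : MR σ = ‖LamM σ‖ := by
    rw [LamM_real, Complex.norm_real, Real.norm_eq_abs, abs_of_pos (MR_pos σ)]
  have h3 : ‖(((2 * Real.pi : ℝ) : ℂ) ^ (σ : ℂ))⁻¹‖ ≤ 1 := by
    rw [norm_inv, Complex.norm_cpow_eq_rpow_re_of_pos (by positivity), hre]
    exact inv_le_one_of_one_le₀ (Real.one_le_rpow hp1 (by linarith))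
  have h4 : ‖Gamma (σ : ℂ)‖ = Real.Gamma σ := by
    rw [Complex.Gamma_ofReal, Complex.norm_real, Real.norm_eq_abs, abs_of_pos (Real.Gamma_pos_of_pos (by linarith))]
  rw [h2, ← hL, norm_mul, norm_mul, h4]
  have h5 := Gamma_le' (show 2 ≤ σ by linarith)
  have h6 : 0 ≤ Real.Gamma σ := (Real.Gamma_pos_of_pos (by linarith)).le
  have h7 : Real.Gamma σ * ‖(((2 * Real.pi : ℝ) : ℂ) ^ (σ : ℂ))⁻¹‖ ≤ Real.exp (2 * (σ + 1) ^ (3 / 2 : ℝ)) := by
    have : Real.Gamma σ * ‖(((2 * Real.pi : ℝ) : ℂ) ^ (σ : ℂ))⁻¹‖ ≤ Real.Gamma σ * 1 :=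
      mul_le_mul_of_nonneg_left h3 h6
    linarith
  have h8 : 0 ≤ Real.Gamma σ * ‖(((2 * Real.pi : ℝ) : ℂ) ^ (σ : ℂ))⁻¹‖ := by positivity
  refine mul_le_mul (h1.trans (by linarith)) h7 h8 (by positivity)

lemma LamM_growth : ∃ K : ℝ, 0 ≤ K ∧ ∀ s : ℂ, ‖LamM s‖ ≤ Real.exp (K * (1 + ‖s‖) ^ (3 / 2 : ℝ)) := by
  obtain ⟨C, hC, hl⟩ := MR_large
  obtain ⟨M, hM, hs⟩ := LamM_strip 4 8
  refine ⟨C + M + 2 * 64, by positivity, fun s => ?_⟩
  have hn := norm_nonneg s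
  have hre := abs_le.1 (Complex.abs_re_le_norm s)
  have e1 : 1 ≤ (1 + ‖s‖) ^ (3 / 2 : ℝ) := Real.one_le_rpow (by linarith) (by norm_num)
  have big : ∀ σ : ℝ, 8 ≤ σ → σ ≤ 12 + ‖s‖ → MR σ ≤ Real.exp ((C + M + 2 * 64) * (1 + ‖s‖) ^ (3 / 2 : ℝ)) := by
    intro σ h1 h2
    have h3 := hl σ h1
    have h4 : (σ + 1) ^ (3 / 2 : ℝ) ≤ 64 * (1 + ‖s‖) ^ (3 / 2 : ℝ) := by
      calc (σ + 1) ^ (3 / 2 : ℝ) ≤ (16 * (1 + ‖s‖)) ^ (3 / 2 : ℝ) :=
            Real.rpow_le_rpow (by linarith) (by linarith) (by norm_num)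
        _ = 16 ^ (3 / 2 : ℝ) * (1 + ‖s‖) ^ (3 / 2 : ℝ) := Real.mul_rpow (by norm_num) (by linarith)
        _ = 64 * (1 + ‖s‖) ^ (3 / 2 : ℝ) := by
          congr 1
          rw [show (16 : ℝ) = 4 ^ (2 : ℝ) by norm_num, ← Real.rpow_mul (by norm_num)]
          norm_num
    have h5 : C ≤ Real.exp (C * (1 + ‖s‖) ^ (3 / 2 : ℝ)) := by
      have := Real.add_one_le_exp (C * (1 + ‖s‖) ^ (3 / 2 : ℝ))
      nlinarith
    calc MR σ ≤ C * Real.exp (2 * (σ + 1) ^ (3 / 2 : ℝ)) := h3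
      _ ≤ Real.exp (C * (1 + ‖s‖) ^ (3 / 2 : ℝ)) * Real.exp (2 * (64 * (1 + ‖s‖) ^ (3 / 2 : ℝ))) := by
          gcongr
      _ = Real.exp ((C + 2 * 64) * (1 + ‖s‖) ^ (3 / 2 : ℝ)) := by
          rw [← Real.exp_add]
          congr 1
          ring
      _ ≤ _ := by
          refine Real.exp_le_exp.2 ?_
          nlinarith
  rcases le_total s.re 8 with h | h
  · rcases le_total 4 s.re with h' | h'
    · refine (hs s h' h).trans ?_
      have := Real.add_one_le_exp (M * (1 + ‖s‖) ^ (3 / 2 : ℝ))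
      calc M ≤ Real.exp (M * (1 + ‖s‖) ^ (3 / 2 : ℝ)) := by nlinarith
        _ ≤ _ := Real.exp_le_exp.2 (by nlinarith)
    · refine (LamM_le s).trans ?_
      rw [← MR_fe]
      exact big _ (by linarith) (by linarith [hre.1])
  · exact (LamM_le s).trans (big _ h (by linarith [hre.2]))

lemma LamS_growth : ∃ K : ℝ, 0 ≤ K ∧ ∀ s : ℂ, ‖LamS s‖ ≤ Real.exp (K * (1 + ‖s‖) ^ (3 / 2 : ℝ)) := by
  obtain ⟨K, hK, h⟩ := LamM_growth
  refine ⟨2 + K * 27, by positivity, fun s => ?_⟩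
  have hn := norm_nonneg s
  have e1 : 1 ≤ (1 + ‖s‖) ^ (3 / 2 : ℝ) := Real.one_le_rpow (by linarith) (by norm_num)
  have h1 : ‖s + 11 / 2‖ ≤ ‖s‖ + 11 / 2 := by
    refine (norm_add_le _ _).trans ?_
    have : ‖(11 / 2 : ℂ)‖ = 11 / 2 := by
      rw [show (11 / 2 : ℂ) = ((11 / 2 : ℝ) : ℂ) by push_cast; rfl, Complex.norm_real]
      norm_num
    rw [this]
  have h4 : (1 + ‖s + 11 / 2‖) ^ (3 / 2 : ℝ) ≤ 27 * (1 + ‖s‖) ^ (3 / 2 : ℝ) := by
    calc (1 + ‖s + 11 / 2‖) ^ (3 / 2 : ℝ) ≤ (9 * (1 + ‖s‖)) ^ (3 / 2 : ℝ) :=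
          Real.rpow_le_rpow (by positivity) (by linarith) (by norm_num)
      _ = 9 ^ (3 / 2 : ℝ) * (1 + ‖s‖) ^ (3 / 2 : ℝ) := Real.mul_rpow (by norm_num) (by linarith)
      _ = 27 * (1 + ‖s‖) ^ (3 / 2 : ℝ) := by
        congr 1
        rw [show (9 : ℝ) = 3 ^ (2 : ℝ) by norm_num, ← Real.rpow_mul (by norm_num)]
        norm_num
  unfold LamS
  rw [norm_mul, Complex.norm_ofNat]
  have h2 : (2 : ℝ) ≤ Real.exp (2 * (1 + ‖s‖) ^ (3 / 2 : ℝ)) := by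
    have := Real.add_one_le_exp (2 * (1 + ‖s‖) ^ (3 / 2 : ℝ))
    linarith
  calc 2 * ‖LamM (s + 11 / 2)‖ ≤ Real.exp (2 * (1 + ‖s‖) ^ (3 / 2 : ℝ)) *
        Real.exp (K * (1 + ‖s + 11 / 2‖) ^ (3 / 2 : ℝ)) :=
        mul_le_mul h2 (h _) (norm_nonneg _) (Real.exp_pos _).le
    _ ≤ _ := by
        rw [← Real.exp_add]
        refine Real.exp_le_exp.2 ?_
        have := mul_le_mul_of_nonneg_left h4 hK
        linarith

lemma LamS_sub (s : ℂ) : LamS (1 - s) = LamS s := by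
  unfold LamS
  have e : 1 - s + 11 / 2 = 12 - (s + 11 / 2) := by ring
  rw [e, LamM_fe]

lemma LamS_half : LamS (1 / 2) ≠ 0 := by
  unfold LamS
  have e : (1 / 2 + 11 / 2 : ℂ) = ((6 : ℝ) : ℂ) := by push_cast; norm_num
  rw [e, LamM_real]
  have := MR_pos 6
  exact mul_ne_zero two_ne_zero (by exact_mod_cast this.ne')

/-- the sum over the zeros of Ramanujan's function, on the Riemann hypothesis -/
theorem sum_zeros (hz : ∀ s, LamS s = 0 → s.re = 1 / 2) :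
    ∃ c : ℝ, 2 * (deriv LamM (13 / 2) / LamM (13 / 2)) = c ∧
      HasSum (fun γ : {γ : ℝ // LamS (1 / 2 + γ * I) = 0} =>
        (analyticOrderNatAt LamS (1 / 2 + (γ : ℝ) * I) : ℝ) / (1 / 4 + (γ : ℝ) ^ 2)) c := by
  obtain ⟨K, hK, hg⟩ := LamS_growth
  obtain ⟨c, h1, h2⟩ := even_sum LamS_diff LamS_sub hK hg hz LamS_half
  refine ⟨c, ?_, h2⟩
  rw [← h1]
  have h3 : deriv LamS 1 = 2 * deriv LamM (13 / 2) := by
    have e : (1 + 11 / 2 : ℂ) = 13 / 2 := by norm_num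
    have h4 : HasDerivAt LamM (deriv LamM (1 + 11 / 2)) (1 + 11 / 2) := (LamM_diff _).hasDerivAt
    have h5 : HasDerivAt (fun s : ℂ => s + 11 / 2) 1 1 := (hasDerivAt_id (1 : ℂ)).add_const _
    have h6 := (h4.comp (1 : ℂ) h5).const_mul 2
    have h7 : HasDerivAt LamS (2 * (deriv LamM (1 + 11 / 2) * 1)) 1 := h6
    rw [h7.deriv, e, mul_one]
  have h4 : LamS 1 = 2 * LamM (13 / 2) := by
    unfold LamS
    congr 2
    norm_num
  rw [h3, h4, mul_div_mul_left _ _ two_ne_zero]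

end Pool.Agent.H575.RD
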