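import Pool.Agent.H575.RD.D5
import Pool.Agent.H290.NB.Obj

set_option autoImplicit false

/-!
# Ramanujan's Xi-function: transport of the conclusions
-/

namespace Pool.Agent.H575.RD

open Complex MeasureTheory Filter Topology Set MatrixGroups
open UpperHalfPlane hiding I
open scoped ComplexConjugate Real ENNReal
open Pool.Agent.X3.Tau Pool.Agent.Q286.GB Pool.Agent.H290.NB

/-- Ramanujan's Xi-function -/
noncomputable def XiM (z : ℂ) : ℂ := LamM (6 + I * z)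

lemma XiM_eq (z : ℂ) : XiM z = 1 / 2 * LamS (1 / 2 + I * z) := by
  unfold XiM LamS
  rw [← mul_assoc]
  norm_num
  congr 1
  ring

lemma XiM_diff : Differentiable ℂ XiM := LamM_diff.comp (by fun_prop)

lemma rh_iff' : (∀ s : ℂ, LamS s = 0 → s.re = 1 / 2) ↔ ∀ z : ℂ, XiM z = 0 → z.im = 0 := by
  constructor
  · intro h z hz
    rw [XiM_eq] at hz
    have h1 := h _ ((mul_eq_zero.1 hz).resolve_left (by norm_num))
    have e : (1 / 2 + I * z).re = 1 / 2 - z.im := by simp; ring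
    rw [e] at h1
    linarith
  · intro h s hs
    have e : 1 / 2 + I * (-I * (s - 1 / 2)) = s := by
      have : I * I = -1 := I_mul_I
      linear_combination (-(s - 1 / 2)) * this
    have h1 := h (-I * (s - 1 / 2)) (by rw [XiM_eq, e, hs, mul_zero])
    have e2 : (-I * (s - 1 / 2)).im = -(s.re - 1 / 2) := by
      simp
    rw [e2] at h1
    linarith

lemma ord_XiM (z : ℂ) : analyticOrderAt XiM z = analyticOrderAt LamS (1 / 2 + I * z) := by
  have hg : AnalyticAt ℂ (fun z : ℂ => 1 / 2 + I * z) z := by fun_prop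
  have hg' : deriv (fun z : ℂ => 1 / 2 + I * z) z ≠ 0 := by
    have : HasDerivAt (fun z : ℂ => 1 / 2 + I * z) I z := by
      have := ((hasDerivAt_id z).const_mul I).const_add (1 / 2)
      simpa using this
    rw [this.deriv]
    exact I_ne_zero
  have h1 := analyticOrderAt_comp_of_deriv_ne_zero (f := LamS) hg hg'
  rw [← h1]
  have hL : AnalyticAt ℂ LamS (1 / 2 + I * z) := LamS_diff.analyticAt _
  have hcomp : AnalyticAt ℂ (LamS ∘ fun z : ℂ => 1 / 2 + I * z) z :=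
    AnalyticAt.comp (f := fun z : ℂ => 1 / 2 + I * z) hL hg
  have e : XiM = (fun _ : ℂ => (1 / 2 : ℂ)) * (LamS ∘ fun z : ℂ => 1 / 2 + I * z) := by
    funext z
    exact XiM_eq z
  rw [e, analyticOrderAt_mul analyticAt_const hcomp]
  have h2 : analyticOrderAt (fun _ : ℂ => (1 / 2 : ℂ)) z = 0 := by
    rw [analyticAt_const.analyticOrderAt_eq_zero]
    norm_num
  rw [h2, zero_add]

lemma ordN_XiM (γ : ℝ) : analyticOrderNatAt XiM γ = analyticOrderNatAt LamS ((((1 / 2 : ℝ)) : ℂ) + γ * I) := by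
  unfold analyticOrderNatAt
  rw [ord_XiM]
  congr 2
  push_cast
  ring

lemma zero_iff (γ : ℝ) : XiM γ = 0 ↔ LamS ((((1 / 2 : ℝ)) : ℂ) + γ * I) = 0 := by
  rw [XiM_eq]
  have e : (1 / 2 + I * (γ : ℂ)) = (((1 / 2 : ℝ)) : ℂ) + γ * I := by push_cast; ring
  rw [e]
  simp

/-- the constants -/
noncomputable def BX (j : ℕ) : ℝ≥0∞ :=
  ∑' γ : {γ : ℝ // XiM γ = 0}, ENNReal.ofReal ((analyticOrderNatAt XiM (γ : ℝ) : ℝ) ^ j / (1 / 4 + (γ : ℝ) ^ 2))

lemma BX_two : BX 2 = BB LamS (1 / 2) := by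
  unfold BX BB
  let e : {γ : ℝ // XiM γ = 0} ≃ {g : ℝ // LamS ((((1 / 2 : ℝ)) : ℂ) + g * I) = 0} :=
    { toFun := fun g => ⟨g.1, (zero_iff g.1).1 g.2⟩
      invFun := fun g => ⟨g.1, (zero_iff g.1).2 g.2⟩
      left_inv := fun _ => rfl
      right_inv := fun _ => rfl }
  rw [← e.tsum_eq]
  refine tsum_congr fun g => ?_
  rw [ordN_XiM]
  rfl

lemma BX_one : BX 1 = BB1 LamS (1 / 2) := by
  unfold BX BB1
  let e : {γ : ℝ // XiM γ = 0} ≃ {g : ℝ // LamS ((((1 / 2 : ℝ)) : ℂ) + g * I) = 0} :=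
    { toFun := fun g => ⟨g.1, (zero_iff g.1).1 g.2⟩
      invFun := fun g => ⟨g.1, (zero_iff g.1).2 g.2⟩
      left_inv := fun _ => rfl
      right_inv := fun _ => rfl }
  rw [← e.tsum_eq]
  refine tsum_congr fun g => ?_
  rw [ordN_XiM, pow_one]
  rfl

/-- the explicit constant -/
noncomputable def kap : ℝ := 2 * (deriv LamM (13 / 2) / LamM (13 / 2)).re

lemma BB1_eq (hr : ∀ s : ℂ, LamS s = 0 → s.re = 1 / 2) : BB1 LamS (1 / 2) = ENNReal.ofReal kap := by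
  obtain ⟨c, hc, hs⟩ := sum_zeros hr
  have hk : kap = c := by
    unfold kap
    have := congrArg Complex.re hc
    rw [ofReal_re] at this
    rw [← this]
    simp
  rw [hk, ← hs.tsum_eq, ENNReal.ofReal_tsum_of_nonneg (fun γ => by positivity) hs.summable]
  unfold BB1
  have hh : ∀ g : ℝ, LamS (1 / 2 + g * I) = 0 ↔ LamS ((((1 / 2 : ℝ)) : ℂ) + g * I) = 0 := fun g => by
    rw [half_cast]
  let e : {γ : ℝ // LamS (1 / 2 + γ * I) = 0} ≃ {g : ℝ // LamS ((((1 / 2 : ℝ)) : ℂ) + g * I) = 0} :=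
    { toFun := fun g => ⟨g.1, (hh g.1).1 g.2⟩
      invFun := fun g => ⟨g.1, (hh g.1).2 g.2⟩
      left_inv := fun _ => rfl
      right_inv := fun _ => rfl }
  rw [← e.tsum_eq]
  refine tsum_congr fun g => ?_
  show ENNReal.ofReal ((analyticOrderNatAt LamS ((((1 / 2 : ℝ)) : ℂ) + (g : ℝ) * I) : ℝ) / (1 / 4 + (g : ℝ) ^ 2)) = _
  rw [half_cast]

lemma simple_iff (hr : ∀ s : ℂ, LamS s = 0 → s.re = 1 / 2) :
    (∀ g : ℝ, LamS ((((1 / 2 : ℝ)) : ℂ) + g * I) = 0 → analyticOrderNatAt LamS ((((1 / 2 : ℝ)) : ℂ) + g * I) ≤ 1) ↔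
      ∀ z : ℂ, XiM z = 0 → deriv XiM z ≠ 0 := by
  have hXd := XiM_diff
  have hne : ∀ z : ℂ, analyticOrderAt XiM z ≠ ⊤ := by
    intro z htop
    have hA : AnalyticOnNhd ℂ XiM univ := fun z _ => hXd.analyticAt z
    have h3 := hA.eqOn_zero_of_preconnected_of_eventuallyEq_zero isPreconnected_univ (mem_univ z)
      (analyticOrderAt_eq_top.1 htop)
    have h4 : XiM I = 0 := h3 (mem_univ _)
    have h5 := rh_iff'.1 hr I h4
    simp at h5
  have key : ∀ z : ℂ, XiM z = 0 → (analyticOrderNatAt XiM z ≤ 1 ↔ deriv XiM z ≠ 0) := by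
    intro z hz
    have hA := hXd.analyticAt z
    have h1 : analyticOrderAt XiM z ≠ 0 := hA.analyticOrderAt_ne_zero.2 hz
    have h2 : analyticOrderNatAt XiM z ≠ 0 := by
      intro h
      have h3 := Nat.cast_analyticOrderNatAt (hne z)
      rw [h] at h3
      exact h1 h3.symm
    have h4 := hA.analyticOrderAt_sub_eq_one_of_deriv_ne_zero
    rw [hz] at h4
    simp only [sub_zero] at h4
    constructor
    · intro h5 h6
      have h7 : analyticOrderNatAt XiM z = 1 := by omega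
      have h8 : analyticOrderAt XiM z = 1 := by
        rw [← Nat.cast_analyticOrderNatAt (hne z), h7]
        rfl
      have h9 := hA.analyticOrderAt_deriv_add_one
      rw [hz] at h9
      simp only [sub_zero] at h9
      have h10 : analyticOrderAt (deriv XiM) z = 0 := by
        rw [h8] at h9
        have : analyticOrderAt (deriv XiM) z + 1 = 0 + 1 := by rw [h9, zero_add]
        exact WithTop.add_right_cancel ENat.one_ne_top this
      exact (hA.deriv.analyticOrderAt_eq_zero.1 h10) h6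
    · intro h5
      have h6 := h4 h5
      unfold analyticOrderNatAt
      rw [h6]
      exact le_refl 1
  constructor
  · intro h z hz
    have him := rh_iff'.1 hr z hz
    have hzr : z = ((z.re : ℝ) : ℂ) := by apply Complex.ext <;> simp [him]
    rw [← key z hz, hzr, ordN_XiM]
    refine h _ ?_
    rw [← zero_iff, ← hzr]
    exact hz
  · intro h g hg
    rw [← ordN_XiM]
    have := (zero_iff g).2 hg
    exact (key _ this).2 (h _ this)

/-- the distance on the line -/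
noncomputable def distM (n : ℕ) : ℝ≥0∞ :=
  ⨅ a : ℕ → ℂ, ENNReal.ofReal (1 / (2 * Real.pi)) * ∫⁻ t : ℝ, ENNReal.ofReal
    (‖1 - LM (6 + t * I) * ∑ k ∈ Finset.Icc 1 n, a k * (k : ℂ) ^ (-(1 / 2 + t * I : ℂ))‖ ^ 2 / (1 / 4 + t ^ 2))

lemma distM_eq (n : ℕ) : distM n = dd (LL muD LamS) (1 / 2) n := by
  unfold distM dd
  refine iInf_congr fun a => ?_
  congr 1
  refine lintegral_congr fun t => ?_
  rw [LL_eq, half_cast]
  have e : (1 / 2 + (t : ℂ) * I + 11 / 2) = 6 + t * I := by ring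
  rw [e]

/-- the summatory function -/
noncomputable def SM (y : ℝ) : ℝ := ∑ j ∈ Finset.Icc 1 ⌊y⌋₊, ((tau j : ℤ) : ℝ) / (j : ℝ) ^ (11 / 2 : ℝ)

noncomputable def edistM (n : ℕ) : ℝ≥0∞ :=
  ⨅ a : ℕ → ℂ, ∫⁻ y in Ioi (1 : ℝ), ENNReal.ofReal
    (‖1 - ∑ k ∈ Finset.Icc 1 n, a k * ((SM (y / k) : ℝ) : ℂ)‖ ^ 2 / y ^ 2)

lemma edistM_eq (n : ℕ) : edistM n = ee (fun n => (la n : ℂ)) n := by
  unfold edistM ee
  refine iInf_congr fun a => lintegral_congr fun y => ?_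
  have h0 : (fun n => (la n : ℂ)) 0 = 0 := by simp [la_zero]
  rw [dil (fun n => (la n : ℂ)) h0 a n ⌊y⌋₊]
  have h1 : ∑ k ∈ Finset.Icc 1 n, a k * ((SM (y / k) : ℝ) : ℂ) =
      ∑ k ∈ Finset.Icc 1 n, a k * ∑ j ∈ Finset.Icc 1 (⌊y⌋₊ / k), (la j : ℂ) := by
    refine Finset.sum_congr rfl fun k _ => ?_
    unfold SM la
    rw [Nat.floor_div_natCast]
    push_cast
    rfl
  rw [h1]

/-- the conclusions -/
theorem final :
    ((∀ n, edistM n ≤ distM n) ∧
      BX 2 ≤ liminf (fun n : ℕ => edistM n * ENNReal.ofReal (Real.log n)) atTop) ∧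
    ((∀ z : ℂ, XiM z = 0 → z.im = 0) → BX 2 ≠ ⊤ ∧
      Tendsto (fun n : ℕ => distM n * ENNReal.ofReal (Real.log n)) atTop (𝓝 (BX 2)) ∧
      Tendsto (fun n : ℕ => edistM n * ENNReal.ofReal (Real.log n)) atTop (𝓝 (BX 2))) ∧
    (¬ (∀ z : ℂ, XiM z = 0 → z.im = 0) → ∃ c : ℝ≥0∞, c ≠ 0 ∧ ∀ n, c ≤ edistM n ∧ c ≤ distM n) ∧
    (Tendsto (fun n : ℕ => distM n * ENNReal.ofReal (Real.log n)) atTop (𝓝 (ENNReal.ofReal kap)) ↔
      (∀ z : ℂ, XiM z = 0 → z.im = 0) ∧ ∀ z : ℂ, XiM z = 0 → deriv XiM z ≠ 0) ∧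
    (Tendsto (fun n : ℕ => edistM n * ENNReal.ofReal (Real.log n)) atTop (𝓝 (ENNReal.ofReal kap)) ↔
      (∀ z : ℂ, XiM z = 0 → z.im = 0) ∧ ∀ z : ℂ, XiM z = 0 → deriv XiM z ≠ 0) ∧
    ((∀ z : ℂ, XiM z = 0 → z.im = 0) ↔ Tendsto distM atTop (𝓝 0)) ∧
    ((∀ z : ℂ, XiM z = 0 → z.im = 0) ↔ Tendsto edistM atTop (𝓝 0)) ∧
    ((∀ z : ℂ, XiM z = 0 → z.im = 0) ↔
      liminf (fun n : ℕ => distM n * ENNReal.ofReal (Real.log n)) atTop ≠ ⊤) ∧
    ((∀ z : ℂ, XiM z = 0 → z.im = 0) ↔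
      liminf (fun n : ℕ => edistM n * ENNReal.ofReal (Real.log n)) atTop ≠ ⊤) := by
  have hc := concl_Delta
  have e1 : distM = dd (LL muD LamS) (1 / 2) := funext distM_eq
  have e2 : edistM = ee (fun n => (la n : ℂ)) := funext edistM_eq
  rw [e1, e2, BX_two, ← rh_iff']
  refine ⟨⟨hc.le, hc.low⟩, hc.rh, fun hr => ?_, ⟨fun ht => ?_, fun h => ?_⟩, ⟨fun ht => ?_, fun h => ?_⟩,
    hc.zero_d, hc.zero_e, hc.iff_d, hc.iff_e⟩
  · obtain ⟨c, h1, h2⟩ := hc.nrh hr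
    exact ⟨c, h1, fun n => ⟨h2 n, (h2 n).trans (hc.le n)⟩⟩
  · have hr : ∀ s : ℂ, LamS s = 0 → s.re = 1 / 2 := by
      refine hc.iff_d.2 ?_
      rw [ht.liminf_eq]
      exact ENNReal.ofReal_ne_top
    refine ⟨hr, ?_⟩
    rw [← BB1_eq hr] at ht
    exact (simple_iff hr).1 (((Concl.simple hc hr).1).1 ht)
  · obtain ⟨hr, h2⟩ := h
    rw [← BB1_eq hr]
    exact ((Concl.simple hc hr).1).2 ((simple_iff hr).2 h2)
  · have hr : ∀ s : ℂ, LamS s = 0 → s.re = 1 / 2 := by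
      refine hc.iff_e.2 ?_
      rw [ht.liminf_eq]
      exact ENNReal.ofReal_ne_top
    refine ⟨hr, ?_⟩
    rw [← BB1_eq hr] at ht
    exact (simple_iff hr).1 (((Concl.simple hc hr).2).1 ht)
  · obtain ⟨hr, h2⟩ := h
    rw [← BB1_eq hr]
    exact ((Concl.simple hc hr).2).2 ((simple_iff hr).2 h2)

end Pool.Agent.H575.RD
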